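import Pool.Agent.SEG.Defs
import Pool.Agent.SEG.Fin56

/-!
# A graph of reduced genus 0 that is not a segment intersection graph (MP_78260b_co, Q1)
-/

set_option autoImplicit false

namespace Pool.Agent.Results.MP_78260b_co.NotSegmentGraph

open Pool.Agent.SEG

/-- There is a finite simple graph of reduced genus `0` that is not the intersection graph of
closed segments in the plane. -/
theorem result : ∃ (n : ℕ) (G : SimpleGraph (Fin n)),
    reducedGenus (mulOf G) = 0 ∧ ReducedGenusZero G ∧ ¬ IsSegmentGraph G := by
  obtain ⟨n, G, h, hn⟩ := Pool.Agent.SEG.I56.negAnswer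
  exact ⟨n, G, h.reducedGenus, h, hn⟩

end Pool.Agent.Results.MP_78260b_co.NotSegmentGraph
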